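import Mathlib
import Pool.Agent.H68.SS.Word4

/-!
Coding a word over `Fin K` by a binary word with the same steering words:
the letter `t` is sent to `0^(K+t) 1^(t+1)`.
-/

namespace Pool.Agent.H68.SS

/-- Length of the code word of `t`. -/
def len (K t : ℕ) : ℕ := (K + t) + (t + 1)

/-- Starting position of the `n`-th code word. -/
def pos (K : ℕ) (y : ℕ → ℕ) : ℕ → ℕ
  | 0 => 0
  | n + 1 => pos K y n + len K (y n)

lemma pos_lt_succ (K : ℕ) (y : ℕ → ℕ) (n : ℕ) : pos K y n < pos K y (n + 1) := by
  simp only [pos, len]; omega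

lemma pos_strictMono (K : ℕ) (y : ℕ → ℕ) : StrictMono (pos K y) :=
  strictMono_nat_of_lt_succ (pos_lt_succ K y)

lemma le_pos (K : ℕ) (y : ℕ → ℕ) (n : ℕ) : n ≤ pos K y n := (pos_strictMono K y).le_apply

/-- Index of the code word containing position `m`. -/
def tok (K : ℕ) (y : ℕ → ℕ) (m : ℕ) : ℕ := Nat.findGreatest (fun n => pos K y n ≤ m) m

lemma tok_eq (K : ℕ) (y : ℕ → ℕ) (n r : ℕ) (hr : r < len K (y n)) :
    tok K y (pos K y n + r) = n := by
  unfold tok
  rw [Nat.findGreatest_eq_iff]
  refine ⟨(le_pos K y n).trans (Nat.le_add_right _ _), fun _ => Nat.le_add_right _ _, ?_⟩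
  intro m hm _ hle
  have : pos K y (n + 1) ≤ pos K y m := (pos_strictMono K y).monotone hm
  have h2 : pos K y (n + 1) = pos K y n + len K (y n) := rfl
  omega

lemma exists_pos (K : ℕ) (y : ℕ → ℕ) (m : ℕ) :
    ∃ n r, r < len K (y n) ∧ m = pos K y n + r := by
  have h0 : pos K y 0 ≤ m := Nat.zero_le _
  have h1 : pos K y (tok K y m) ≤ m := by
    unfold tok
    exact Nat.findGreatest_spec (P := fun n => pos K y n ≤ m) (Nat.zero_le m) h0
  have h2 : m < pos K y (tok K y m + 1) := by
    by_contra h
    push Not at h
    have h3 : tok K y m + 1 ≤ tok K y m := by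
      conv_rhs => unfold tok
      exact Nat.le_findGreatest ((le_pos K y _).trans h) h
    omega
  exact ⟨tok K y m, m - pos K y (tok K y m), by
    have : pos K y (tok K y m + 1) = pos K y (tok K y m) + len K (y (tok K y m)) := rfl
    omega, by omega⟩

/-- The coded binary word. -/
def code (K : ℕ) (y : ℕ → ℕ) (m : ℕ) : Bool :=
  decide (K + y (tok K y m) ≤ m - pos K y (tok K y m))

lemma code_eq (K : ℕ) (y : ℕ → ℕ) (n r : ℕ) (hr : r < len K (y n)) :
    code K y (pos K y n + r) = decide (K + y n ≤ r) := by
  unfold code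
  rw [tok_eq K y n r hr, Nat.add_sub_cancel_left]

lemma eq_not_of_ne (a b : Bool) (h : a ≠ b) : a = !b := by
  cases a <;> cases b <;> simp_all

/-- The step condition. -/
def Step {A : Type} (x : ℕ → A) (s : ℕ → Bool) : Prop := ∀ n, x n = x (cnt s (s n) n)

lemma isSteering_iff {A : Type} (x : ℕ → A) (s : ℕ → Bool) :
    IsSteering x s ↔ (∀ b, {n | s n = b}.Infinite) ∧ Step x s := by
  constructor
  · intro h
    exact ⟨fun b => (h b).1, fun n => steer_step h n⟩
  · rintro ⟨hinf, hs⟩ b
    refine ⟨hinf b, fun k => ?_⟩
    have hb : s (Nat.nth (fun n => s n = b) k) = b := Nat.nth_mem_of_infinite (hinf b) k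
    rw [hs, hb, cnt, Nat.count_nth_of_infinite (hinf b)]

lemma cnt_add' (s : ℕ → Bool) (b : Bool) (n : ℕ) : cnt s b n + cnt s (!b) n = n := by
  cases b
  · rw [add_comm]; exact cnt_add s n
  · exact cnt_add s n

/-- Inside a code word, a step from the copy `b` at the last zero forces everything. -/
lemma key (K : ℕ) (y : ℕ → ℕ) (hy : ∀ n, y n < K) (s : ℕ → Bool) (hs : Step (code K y) s)
    (n i j : ℕ) (b : Bool) (hi : cnt s b (pos K y n) = pos K y i)
    (hj : cnt s (!b) (pos K y n) = pos K y j)
    (hb : s (pos K y n + (K + y n)) = b) :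
    y i = y n ∧ ∀ r < len K (y n), s (pos K y n + r) = b := by
  have hK : ∀ m, y m < K := hy
  -- counts within the token
  have hmono : ∀ (c : Bool) (r : ℕ), cnt s c (pos K y n + (r + 1)) =
      cnt s c (pos K y n + r) + if s (pos K y n + r) = c then 1 else 0 := by
    intro c r
    rw [← add_assoc, cnt_succ]
  -- zero phase
  have hz : ∀ r ≤ K + y n, ∃ t u, cnt s b (pos K y n + r) = pos K y i + t ∧
      cnt s (!b) (pos K y n + r) = pos K y j + u ∧ t + u = r ∧ t ≤ K + y i ∧ u ≤ K + y j := by
    intro r
    induction r with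
    | zero => intro _; exact ⟨0, 0, by simpa using hi, by simpa using hj, rfl, by omega, by omega⟩
    | succ r ih =>
      intro hr
      obtain ⟨t, u, ht, hu, htu, ht', hu'⟩ := ih (by omega)
      have hx := hs (pos K y n + r)
      rw [code_eq K y n r (by unfold len; omega)] at hx
      have hx0 : decide (K + y n ≤ r) = false := by simp; omega
      rw [hx0] at hx
      by_cases hsb : s (pos K y n + r) = b
      · rw [hsb, ht, code_eq K y i t (by unfold len; omega)] at hx
        have : ¬ (K + y i ≤ t) := by simpa using hx.symm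
        refine ⟨t + 1, u, ?_, ?_, by omega, by omega, hu'⟩
        · rw [hmono, ht, if_pos hsb]; rfl
        · rw [hmono, hu, if_neg]
          · rfl
          · rw [hsb]; cases b <;> decide
      · have hsb' : s (pos K y n + r) = !b := eq_not_of_ne _ _ hsb
        rw [hsb', hu, code_eq K y j u (by unfold len; omega)] at hx
        have : ¬ (K + y j ≤ u) := by simpa using hx.symm
        refine ⟨t, u + 1, ?_, ?_, by omega, ht', by omega⟩
        · rw [hmono, ht, if_neg hsb]; rfl
        · rw [hmono, hu, if_pos hsb']; rfl
  obtain ⟨t, u, ht, hu, htu, ht', hu'⟩ := hz (K + y n) le_rfl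
  -- first one
  have hx := hs (pos K y n + (K + y n))
  rw [code_eq K y n _ (by unfold len; omega), hb, ht,
    code_eq K y i t (by unfold len; omega)] at hx
  have htK : K + y i ≤ t := by simpa using hx.symm
  have hteq : t = K + y i := by omega
  have hn := hK n
  have huj : u < K + y j := by have := hK n; omega
  -- one phase
  have ho : ∀ r ≤ y n + 1, r ≤ y i + 1 ∧
      cnt s b (pos K y n + (K + y n + r)) = pos K y i + (t + r) ∧
      cnt s (!b) (pos K y n + (K + y n + r)) = pos K y j + u ∧
      (∀ r' < r, s (pos K y n + (K + y n + r')) = b) := by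
    intro r
    induction r with
    | zero =>
      intro _
      exact ⟨by omega, by simpa using ht, by simpa using hu, fun r' h => absurd h (by omega)⟩
    | succ r ih =>
      intro hr
      obtain ⟨h1, h2, h3, h4⟩ := ih (by omega)
      have hx := hs (pos K y n + (K + y n + r))
      rw [code_eq K y n _ (by unfold len; omega)] at hx
      have hx1 : decide (K + y n ≤ K + y n + r) = true := by simp
      rw [hx1] at hx
      have hsb : s (pos K y n + (K + y n + r)) = b := by
        by_contra hne
        have hsb' : s (pos K y n + (K + y n + r)) = !b := eq_not_of_ne _ _ hne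
        rw [hsb', h3, code_eq K y j u (by unfold len; omega)] at hx
        have : K + y j ≤ u := by simpa using hx.symm
        omega
      have hri : r < y i + 1 := by
        by_contra hge
        have hreq : r = y i + 1 := by omega
        have e : pos K y i + (t + r) = pos K y (i + 1) + 0 := by
          simp only [pos, len]; omega
        rw [hsb, h2, e, code_eq K y (i + 1) 0 (by unfold len; omega)] at hx
        have : K + y (i + 1) ≤ 0 := by simpa using hx.symm
        omega
      refine ⟨by omega, ?_, ?_, ?_⟩
      · rw [show K + y n + (r + 1) = (K + y n + r) + 1 from rfl, hmono, h2, if_pos hsb]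
        ring
      · rw [show K + y n + (r + 1) = (K + y n + r) + 1 from rfl, hmono, h3, if_neg]
        · rfl
        · rw [hsb]; cases b <;> decide
      · intro r' hr'
        rcases Nat.lt_succ_iff_lt_or_eq.mp hr' with h | rfl
        · exact h4 r' h
        · exact hsb
  obtain ⟨g1, -, -, g4⟩ := ho (y n + 1) le_rfl
  have hyi : y i = y n := by omega
  have hu0 : u = 0 := by omega
  refine ⟨hyi, fun r hr => ?_⟩
  by_cases hrK : r < K + y n
  · by_contra hne
    have hsb' : s (pos K y n + r) = !b := eq_not_of_ne _ _ hne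
    have h5 : cnt s (!b) (pos K y n + (r + 1)) = cnt s (!b) (pos K y n + r) + 1 := by
      rw [hmono, if_pos hsb']
    have h6 : cnt s (!b) (pos K y n + (r + 1)) ≤ cnt s (!b) (pos K y n + (K + y n)) :=
      Nat.count_monotone _ (by omega)
    have h7 : cnt s (!b) (pos K y n) ≤ cnt s (!b) (pos K y n + r) :=
      Nat.count_monotone _ (by omega)
    omega
  · obtain ⟨r', rfl⟩ : ∃ r', r = K + y n + r' := ⟨r - (K + y n), by omega⟩
    exact g4 r' (by unfold len at hr; omega)

/-- Step structure at the level of code words. -/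
lemma structure_of_step (K : ℕ) (y : ℕ → ℕ) (hy : ∀ n, y n < K) (s : ℕ → Bool)
    (hs : Step (code K y) s) (n : ℕ) :
    (∀ b, cnt s b (pos K y n) = pos K y (cnt (fun m => s (pos K y m)) b n)) ∧
      (∀ r < len K (y n), s (pos K y n + r) = s (pos K y n)) ∧
      y n = y (cnt (fun m => s (pos K y m)) (s (pos K y n)) n) := by
  set σ : ℕ → Bool := fun m => s (pos K y m) with hσ
  have aux : ∀ n, (∀ b, cnt s b (pos K y n) = pos K y (cnt σ b n)) →
      (∀ r < len K (y n), s (pos K y n + r) = s (pos K y n)) ∧
        y n = y (cnt σ (s (pos K y n)) n) := by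
    intro n hn
    obtain ⟨h1, h2⟩ := key K y hy s hs n (cnt σ (s (pos K y n + (K + y n))) n)
      (cnt σ (!s (pos K y n + (K + y n))) n) (s (pos K y n + (K + y n))) (hn _) (hn _) rfl
    have h0 : s (pos K y n) = s (pos K y n + (K + y n)) := by
      simpa using h2 0 (by unfold len; omega)
    refine ⟨fun r hr => ?_, ?_⟩
    · rw [h2 r hr, h0]
    · rw [h0]; exact h1.symm
  have main : ∀ n, ∀ b, cnt s b (pos K y n) = pos K y (cnt σ b n) := by
    intro n
    induction n with
    | zero => intro b; simp [cnt, pos]
    | succ n ih =>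
      intro b
      obtain ⟨h1, h2⟩ := aux n ih
      have h3 : ∀ r ≤ len K (y n), cnt s b (pos K y n + r) =
          cnt s b (pos K y n) + if s (pos K y n) = b then r else 0 := by
        intro r
        induction r with
        | zero => intro _; simp
        | succ r ihr =>
          intro hr
          rw [← add_assoc, cnt_succ, ihr (by omega), h1 r (by omega)]
          split_ifs <;> omega
      rw [show pos K y (n + 1) = pos K y n + len K (y n) from rfl, h3 _ le_rfl, ih b, cnt_succ]
      have hσn : σ n = s (pos K y n) := rfl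
      rw [hσn]
      split_ifs with hb
      · rw [show pos K y (cnt σ b n + 1) = pos K y (cnt σ b n) + len K (y (cnt σ b n)) from rfl,
          ← hb, ← h2]
      · rfl
  exact ⟨main n, aux n (main n)⟩

/-- A steering word of the coded word gives one of the original word. -/
lemma down (K : ℕ) (y : ℕ → ℕ) (hy : ∀ n, y n < K) (s : ℕ → Bool)
    (hs : IsSteering (code K y) s) : IsSteering y (fun n => s (pos K y n)) := by
  rw [isSteering_iff] at hs ⊢
  obtain ⟨hinf, hst⟩ := hs
  have hstr := structure_of_step K y hy s hst
  refine ⟨fun b => ?_, fun n => (hstr n).2.2⟩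
  refine Set.infinite_of_forall_exists_gt fun a => ?_
  obtain ⟨m, hm, ham⟩ := (hinf b).exists_gt (pos K y (a + 1))
  obtain ⟨n, r, hr, rfl⟩ := exists_pos K y m
  refine ⟨n, ?_, ?_⟩
  · show s (pos K y n) = b
    rw [← (hstr n).2.1 r hr]; exact hm
  · by_contra hle
    have h1 : pos K y (n + 1) ≤ pos K y (a + 1) := (pos_strictMono K y).monotone (by omega)
    have h2 : pos K y (n + 1) = pos K y n + len K (y n) := rfl
    omega

lemma lift_pos (K : ℕ) (y : ℕ → ℕ) (σ : ℕ → Bool) (n r : ℕ) (hr : r < len K (y n)) :
    σ (tok K y (pos K y n + r)) = σ n := by rw [tok_eq K y n r hr]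

/-- A steering word of the original word gives one of the coded word. -/
lemma up (K : ℕ) (y : ℕ → ℕ) (σ : ℕ → Bool)
    (hs : IsSteering y σ) : IsSteering (code K y) (fun m => σ (tok K y m)) := by
  rw [isSteering_iff] at hs ⊢
  obtain ⟨hinf, hst⟩ := hs
  set s : ℕ → Bool := fun m => σ (tok K y m) with hsdef
  have hspos : ∀ n r, r < len K (y n) → s (pos K y n + r) = σ n := fun n r hr =>
    lift_pos K y σ n r hr
  have hin : ∀ n b, ∀ r ≤ len K (y n), cnt s b (pos K y n + r) =
      cnt s b (pos K y n) + if σ n = b then r else 0 := by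
    intro n b r
    induction r with
    | zero => intro _; simp
    | succ r ihr =>
      intro hr
      rw [← add_assoc, cnt_succ, ihr (by omega), hspos n r (by omega)]
      split_ifs <;> omega
  have main : ∀ n b, cnt s b (pos K y n) = pos K y (cnt σ b n) := by
    intro n
    induction n with
    | zero => intro b; simp [cnt, pos]
    | succ n ih =>
      intro b
      rw [show pos K y (n + 1) = pos K y n + len K (y n) from rfl, hin n b _ le_rfl, ih b,
        cnt_succ]
      split_ifs with hb
      · rw [show pos K y (cnt σ b n + 1) = pos K y (cnt σ b n) + len K (y (cnt σ b n)) from rfl,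
          ← hb, ← hst n]
      · rfl
  refine ⟨fun b => ?_, fun m => ?_⟩
  · refine Set.infinite_of_forall_exists_gt fun a => ?_
    obtain ⟨n, hn, han⟩ := (hinf b).exists_gt a
    refine ⟨pos K y n, ?_, lt_of_lt_of_le han (le_pos K y n)⟩
    have := hspos n 0 (by unfold len; omega)
    rw [add_zero] at this
    show s (pos K y n) = b
    rw [this]; exact hn
  · obtain ⟨n, r, hr, rfl⟩ := exists_pos K y m
    rw [hspos n r hr, hin n (σ n) r hr.le, if_pos rfl, main n (σ n), code_eq K y n r hr,
      code_eq K y _ r (by rw [← hst n]; exact hr), ← hst n]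

/-- The steering words of a word over naturals `< K` and of its binary code correspond. -/
def steerEquiv (K : ℕ) (y : ℕ → ℕ) (hy : ∀ n, y n < K) :
    {σ : ℕ → Bool // σ 0 = true ∧ IsSteering y σ} ≃
      {s : ℕ → Bool // s 0 = true ∧ IsSteering (code K y) s} where
  toFun σ := ⟨fun m => σ.1 (tok K y m), by
    refine ⟨?_, up K y σ.1 σ.2.2⟩
    have := lift_pos K y σ.1 0 0 (by unfold len; omega)
    simp only [pos, add_zero] at this
    show σ.1 (tok K y 0) = true
    rw [this]; exact σ.2.1⟩
  invFun s := ⟨fun n => s.1 (pos K y n), s.2.1, down K y hy s.1 s.2.2⟩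
  left_inv σ := by
    apply Subtype.ext
    funext n
    have := lift_pos K y σ.1 n 0 (by unfold len; omega)
    rw [add_zero] at this
    exact this
  right_inv s := by
    apply Subtype.ext
    funext m
    obtain ⟨n, r, hr, rfl⟩ := exists_pos K y m
    show s.1 (pos K y (tok K y (pos K y n + r))) = _
    rw [tok_eq K y n r hr]
    exact ((structure_of_step K y hy s.1 ((isSteering_iff _ _).1 s.2.2).2 n).2.1 r hr).symm

lemma isSteering_comp {A B : Type} (f : A → B) (hf : Function.Injective f) (x : ℕ → A)
    (s : ℕ → Bool) : IsSteering (fun n => f (x n)) s ↔ IsSteering x s := by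
  unfold IsSteering
  refine forall_congr' fun b => and_congr_right fun _ => forall_congr' fun k => hf.eq_iff

end Pool.Agent.H68.SS
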